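import Pool.Agent.Helper74.DG2.Lay
import Pool.Agent.Helper59.DG.LayoutVtx

/-!
# The layout of a grid with islands: positions are distinct and no vertex lies on an edge
-/

set_option autoImplicit false
set_option linter.unusedSectionVars false

namespace Pool.Agent.Helper74.DG2

open Pool.Agent.Helper18.RAC Complex

namespace LV

open Pool.Agent.Helper82.DG.LV (Bt bt_of seg_box no_int no_par cast_2M cast_M mir mir_seg)

/-! ### offsets and columns -/

theorem ph_nonneg {M j : ℕ} (hj : 1 ≤ j) : 0 ≤ ph M j := by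
  unfold ph
  have h1 : (1 : ℝ) ≤ j := by exact_mod_cast hj
  exact div_nonneg (by linarith) (by positivity)

theorem ph_lt {M j : ℕ} (hM : 1 ≤ M) (hj : j ≤ M) : ph M j < 1 / 2 := by
  unfold ph
  have h1 : (1 : ℝ) ≤ M := by exact_mod_cast hM
  have h2 : (j : ℝ) ≤ M := by exact_mod_cast hj
  rw [div_lt_iff₀ (by linarith)]
  linarith

theorem ph_mono {M i j : ℕ} (hM : 1 ≤ M) (h : i < j) : ph M i < ph M j := by
  unfold ph
  have h1 : (1 : ℝ) ≤ M := by exact_mod_cast hM
  have h2 : (i : ℝ) < j := by exact_mod_cast h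
  exact div_lt_div_of_pos_right (by linarith) (by linarith)

theorem ph_inj {M i j : ℕ} (hM : 1 ≤ M) (h : ph M i = ph M j) : i = j := by
  rcases lt_trichotomy i j with h1 | h1 | h1
  · exact absurd h (ph_mono hM h1).ne
  · exact h1
  · exact absurd h (ph_mono hM h1).ne'

theorem ph_one (M : ℕ) : ph M 1 = 0 := by
  unfold ph
  simp

theorem nat_eq_of {a b : ℕ} (h1 : (a : ℝ) < b + 1) (h2 : (b : ℝ) < a + 1) : a = b := by
  have h1' : a < b + 1 := by exact_mod_cast h1
  have h2' : b < a + 1 := by exact_mod_cast h2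
  omega

/-- an odd number is not in the range of the islands of a column -/
theorem no_odd {a b : ℕ} {r : ℝ} (h : 2 * (a : ℝ) + 1 = 2 * b + 2 + r) (h0 : 0 ≤ r)
    (h1 : r < 1 / 2) : False := by
  have e1 : (2 * b + 2 : ℝ) ≤ 2 * a + 1 := by linarith
  have e2 : (2 * a + 1 : ℝ) < 2 * b + 3 := by linarith
  have e1' : 2 * b + 2 ≤ 2 * a + 1 := by exact_mod_cast e1
  have e2' : 2 * a + 1 < 2 * b + 3 := by exact_mod_cast e2
  omega

/-- the kinds of points of the layout -/
inductive Kd (M : ℕ) (n s e w : ℝ) : GX → ℝ → ℝ → Prop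
  | xf : Kd M n s e w (.X false) 0 n
  | xt : Kd M n s e w (.X true) e 0
  | yf : Kd M n s e w (.Y false) 0 (-s)
  | yt : Kd M n s e w (.Y true) (-w) 0
  | pf (j : ℕ) : (j : ℝ) + 1 ≤ 2 * M → Kd M n s e w (.v (.P false j)) (j + 1) (-1)
  | pt (j : ℕ) : (j : ℝ) + 1 ≤ 2 * M → Kd M n s e w (.v (.P true j)) (-1) (j + 1)
  | uf (c : ℕ) : (c : ℝ) + 1 ≤ M → Kd M n s e w (.v (.U false c)) (2 * c + 1) (2 * M + 2)
  | ut (c : ℕ) : (c : ℝ) + 1 ≤ M → Kd M n s e w (.v (.U true c)) (2 * M + 2) (2 * c + 1)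
  | cf (j : ℕ) : (j : ℝ) + 2 ≤ 2 * M →
      Kd M n s e w (.v (.C false j false)) (j + 3 / 2) (-1 / 2)
  | cf' (j : ℕ) : (j : ℝ) + 2 ≤ 2 * M →
      Kd M n s e w (.v (.C false j true)) (j + 3 / 2) (-3 / 4)
  | ct (j : ℕ) : (j : ℝ) + 2 ≤ 2 * M →
      Kd M n s e w (.v (.C true j false)) (-1 / 2) (j + 3 / 2)
  | ct' (j : ℕ) : (j : ℝ) + 2 ≤ 2 * M →
      Kd M n s e w (.v (.C true j true)) (-3 / 4) (j + 3 / 2)
  | qf : Kd M n s e w (.v (.Q false)) (2 * M) (2 * M)
  | qt : Kd M n s e w (.v (.Q true)) (2 * M + 1 / 4) (2 * M + 1 / 4)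
  | d (c r : ℕ) : (c : ℝ) + 1 ≤ M → (r : ℝ) + 1 ≤ M → (c = 0 ∨ r = 0) →
      Kd M n s e w (.v (.D c r)) (2 * c + 2) (2 * r + 2)
  | u (k m : ℕ) : 1 ≤ k → 1 ≤ m → k + m + 2 ≤ M → (1 : ℝ) ≤ cc M k → (cc M k : ℝ) + 2 ≤ M →
      (1 : ℝ) ≤ cc M m → (cc M m : ℝ) + 2 ≤ M → 0 ≤ ph M m → ph M m < 1 / 2 → 0 ≤ ph M k →
      ph M k < 1 / 2 →
      Kd M n s e w (.v (.u k m)) (2 * (cc M k : ℝ) + 2 + ph M m) (2 * (cc M m : ℝ) + 2 + ph M k)
  | l (k m : ℕ) : 1 ≤ k → 1 ≤ m → k + m + 3 ≤ M → (1 : ℝ) ≤ cc M k → (cc M k : ℝ) + 2 ≤ M →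
      (1 : ℝ) ≤ cc M m → (cc M m : ℝ) + 2 ≤ M → 0 ≤ ph M (m + 1) → ph M (m + 1) < 1 / 2 →
      0 ≤ ph M (k + 1) → ph M (k + 1) < 1 / 2 →
      Kd M n s e w (.v (.l k m)) (2 * (cc M k : ℝ) + 2 + ph M (m + 1))
        (2 * (cc M m : ℝ) + 2 + ph M (k + 1))

theorem cc_bd {M k : ℕ} (h1 : 1 ≤ k) (h2 : k + 3 ≤ M) :
    (1 : ℝ) ≤ cc M k ∧ (cc M k : ℝ) + 2 ≤ M := by
  have e1 := cc_pos h1 h2
  have e2 := cc_lt h2
  constructor
  · exact_mod_cast e1
  · have e3 : cc M k + 2 ≤ M := by omega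
    exact_mod_cast e3

theorem kd {M : ℕ} {n s e w : ℝ} : ∀ x : GX, x.ok M →
    Kd M n s e w x (layX M n s e w x).re (layX M n s e w x).im
  | .X false, _ => .xf
  | .X true, _ => .xt
  | .Y false, _ => .yf
  | .Y true, _ => .yt
  | .v (.P false j), h => .pf j (by
      have h' : j + 1 ≤ 2 * M := h
      exact_mod_cast h')
  | .v (.P true j), h => .pt j (by
      have h' : j + 1 ≤ 2 * M := h
      exact_mod_cast h')
  | .v (.U false c), h => .uf c (by
      have h' : c + 1 ≤ M := h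
      exact_mod_cast h')
  | .v (.U true c), h => .ut c (by
      have h' : c + 1 ≤ M := h
      exact_mod_cast h')
  | .v (.C false j false), h => .cf j (by
      have h' : j + 1 + 1 ≤ 2 * M := h
      have h'' : ((j + 1 + 1 : ℕ) : ℝ) ≤ ((2 * M : ℕ) : ℝ) := by exact_mod_cast h'
      push_cast at h''
      linarith)
  | .v (.C false j true), h => .cf' j (by
      have h' : j + 1 + 1 ≤ 2 * M := h
      have h'' : ((j + 1 + 1 : ℕ) : ℝ) ≤ ((2 * M : ℕ) : ℝ) := by exact_mod_cast h'
      push_cast at h''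
      linarith)
  | .v (.C true j false), h => .ct j (by
      have h' : j + 1 + 1 ≤ 2 * M := h
      have h'' : ((j + 1 + 1 : ℕ) : ℝ) ≤ ((2 * M : ℕ) : ℝ) := by exact_mod_cast h'
      push_cast at h''
      linarith)
  | .v (.C true j true), h => .ct' j (by
      have h' : j + 1 + 1 ≤ 2 * M := h
      have h'' : ((j + 1 + 1 : ℕ) : ℝ) ≤ ((2 * M : ℕ) : ℝ) := by exact_mod_cast h'
      push_cast at h''
      linarith)
  | .v (.Q false), _ => .qf
  | .v (.Q true), _ => .qt
  | .v (.D c r), h => .d c r (by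
      have h' : c + 1 ≤ M := h.1
      exact_mod_cast h') (by
      have h' : r + 1 ≤ M := h.2.1
      exact_mod_cast h') h.2.2
  | .v (.u k m), h => by
      obtain ⟨h1, h2, h3⟩ : 1 ≤ k ∧ 1 ≤ m ∧ k + m + 2 ≤ M := h
      obtain ⟨a1, a2⟩ := cc_bd h1 (by omega : k + 3 ≤ M)
      obtain ⟨a3, a4⟩ := cc_bd h2 (by omega : m + 3 ≤ M)
      exact .u k m h1 h2 h3 a1 a2 a3 a4 (ph_nonneg h2) (ph_lt (by omega) (by omega))
        (ph_nonneg h1) (ph_lt (by omega) (by omega))
  | .v (.l k m), h => by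
      obtain ⟨h1, h2, h3⟩ : 1 ≤ k ∧ 1 ≤ m ∧ k + m + 3 ≤ M := h
      obtain ⟨a1, a2⟩ := cc_bd h1 (by omega : k + 3 ≤ M)
      obtain ⟨a3, a4⟩ := cc_bd h2 (by omega : m + 3 ≤ M)
      exact .l k m h1 h2 h3 a1 a2 a3 a4 (ph_nonneg (by omega)) (ph_lt (by omega) (by omega))
        (ph_nonneg (by omega)) (ph_lt (by omega) (by omega))

section

variable {M : ℕ} {n s e w p q : ℝ} {x : GX} (hM : (5 : ℝ) ≤ M) (hn : 2 * M + 3 < n)
  (hs : 2 * M + 3 < s) (he : 2 * M + 3 < e) (hw : 2 * M + 3 < w)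

include hM hn hs he hw

theorem n_ns (h : Kd M n s e w x p q) (h0 : p = 0) (h1 : -s < q) (h2 : q < n) : False := by
  cases h <;> linarith

theorem n_yp (h : Kd M n s e w x p q) (h1 : -s < q) (h2 : q < -1) : False := by
  cases h <;> linarith

theorem n_xu (h : Kd M n s e w x p q) (h1 : 2 * M + 2 < q) (h2 : q < n) : False := by
  cases h <;> linarith

theorem n_xp (h : Kd M n s e w x p q) (h1 : -1 < q) (h2 : q < 0) (h3 : 2 * M < p) : False := by
  cases h <;> linarith

theorem n_up (h : Kd M n s e w x p q) {c : ℕ} (hc : (c : ℝ) + 1 ≤ M) (h0 : p = 2 * c + 1)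
    (h1 : -1 < q) (h2 : q < 2 * M + 2) : False := by
  cases h with
  | cf j hj => exact no_par (a := j + 1) (b := 2 * c + 1) (by push_cast; linarith)
  | cf' j hj => exact no_par (a := j + 1) (b := 2 * c + 1) (by push_cast; linarith)
  | d c' r hc' hr' => exact no_par (a := c) (b := c' + 1) (by push_cast; linarith)
  | u k m => exact no_odd (a := c) h0.symm (by assumption) (by assumption)
  | l k m => exact no_odd (a := c) h0.symm (by assumption) (by assumption)
  | _ => linarith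

theorem n_pd (h : Kd M n s e w x p q) {c : ℕ} (hc : (c : ℝ) + 1 ≤ M) (h0 : p = 2 * c + 2)
    (h1 : -1 < q) (h2 : q < 2) : False := by
  cases h with
  | cf j hj => exact no_par (a := j + 1) (b := 2 * c + 2) (by push_cast; linarith)
  | cf' j hj => exact no_par (a := j + 1) (b := 2 * c + 2) (by push_cast; linarith)
  | _ => linarith

theorem n_dd (h : Kd M n s e w x p q) {c : ℕ} (hc : (c : ℝ) + 2 ≤ M)
    (h0 : q = 2) (h1 : 2 * c + 2 < p) (h2 : p < 2 * c + 4) : False := by
  have hc0 : (0 : ℝ) ≤ c := Nat.cast_nonneg c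
  cases h with
  | d c' r' hc' hr' => exact no_int (a := c) (b := c') (by linarith) (by linarith)
  | _ => linarith

theorem n_pp (h : Kd M n s e w x p q) {j : ℕ} (h0 : q = -1) (h1 : j + 1 < p) (h2 : p < j + 2) :
    False := by
  cases h with
  | pf j' hj' => exact no_int (a := j) (b := j') (by linarith) (by linarith)
  | _ => linarith

theorem n_pc (h : Kd M n s e w x p q) {j : ℕ} (h0 : -1 < q) (h3 : q < -1 / 2) (h1 : j + 1 < p)
    (h2 : p < j + 3 / 2) : False := by
  cases h with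
  | cf' j' hj' => exact no_int (a := j') (b := j) (by linarith) (by linarith)
  | _ => linarith

theorem n_pc' (h : Kd M n s e w x p q) {j : ℕ} (h0 : -1 < q) (h3 : q < -1 / 2)
    (h1 : j + 3 / 2 < p) (h2 : p < j + 2) : False := by
  cases h with
  | cf' j' hj' => exact no_int (a := j) (b := j') (by linarith) (by linarith)
  | _ => linarith

theorem n_cc (h : Kd M n s e w x p q) (h1 : -3 / 4 < q) (h2 : q < -1 / 2) : False := by
  cases h <;> linarith

theorem n_uu (h : Kd M n s e w x p q) (h0 : p + q = 4 * M + 1) (h1 : 0 < p) (h2 : p < 2 * M + 2)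
    (h3 : 0 < q) (h4 : q < 2 * M + 2) : False := by
  cases h <;> linarith

theorem n_uq (h : Kd M n s e w x p q) (h0 : 2 * M - 1 < p) (h2 : p < 2 * M)
    (h3 : 2 * M < q) (h4 : q < 2 * M + 2) : False := by
  cases h <;> linarith

theorem n_uq' (h : Kd M n s e w x p q) (h0 : 2 * M - 1 < p) (h2 : p < 2 * M + 1 / 4)
    (h3 : 2 * M + 1 / 4 < q) (h4 : q < 2 * M + 2) : False := by
  cases h <;> linarith

theorem n_qq (h : Kd M n s e w x p q) (h0 : 2 * M < p) (h2 : p < 2 * M + 1 / 4)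
    (h3 : 2 * M < q) (h4 : q < 2 * M + 1 / 4) : False := by
  cases h <;> linarith

theorem n_dr (h : Kd M n s e w x p q) (h0 : 2 * M < p) (h2 : p < 2 * M + 2)
    (h3 : 1 < q) (h4 : q < 3) : False := by
  cases h <;> linarith

theorem n_ul (h : Kd M n s e w x p q) {k m : ℕ} (hk : 1 ≤ k) (hm : 1 ≤ m) (hkm : k + m + 3 ≤ M)
    (h0 : 2 * (cc M k : ℝ) + 2 + ph M m < p) (h2 : p < 2 * (cc M k : ℝ) + 2 + ph M (m + 1))
    (h3 : 2 * (cc M m : ℝ) + 2 + ph M k < q) (h4 : q < 2 * (cc M m : ℝ) + 2 + ph M (k + 1)) :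
    False := by
  obtain ⟨a1, a2⟩ := cc_bd hk (by omega : k + 3 ≤ M)
  obtain ⟨a3, a4⟩ := cc_bd hm (by omega : m + 3 ≤ M)
  have b1 := ph_nonneg (M := M) hk
  have b2 := ph_nonneg (M := M) hm
  have b3 : ph M (m + 1) < 1 / 2 := ph_lt (by omega) (by omega)
  have b4 : ph M (k + 1) < 1 / 2 := ph_lt (by omega) (by omega)
  cases h with
  | u k' m' =>
    have e1 : cc M k' = cc M k := nat_eq_of (by linarith) (by linarith)
    have e2 : cc M m' = cc M m := nat_eq_of (by linarith) (by linarith)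
    have e3 := cc_inj (by omega) (by omega) e1
    have e4 := cc_inj (by omega) (by omega) e2
    subst e3 e4
    linarith
  | l k' m' =>
    have e1 : cc M k' = cc M k := nat_eq_of (by linarith) (by linarith)
    have e2 : cc M m' = cc M m := nat_eq_of (by linarith) (by linarith)
    have e3 := cc_inj (by omega) (by omega) e1
    have e4 := cc_inj (by omega) (by omega) e2
    subst e3 e4
    linarith
  | d c r hc hr hcr =>
    rcases hcr with rfl | rfl <;> simp at h0 h2 h3 h4 <;> linarith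
  | _ => linarith

theorem n_lk (h : Kd M n s e w x p q) {k m : ℕ} (hk : 1 ≤ k) (hkm : k + m + 3 ≤ M)
    (h0 : p = 2 * (cc M k : ℝ) + 2 + ph M (m + 1)) (h1 : 2 < q) (h2 : q < 2 * M)
    (h3 : q ≠ 2 * (cc M (m + 1) : ℝ) + 2 + ph M k)
    (h4 : 1 ≤ m → q ≠ 2 * (cc M m : ℝ) + 2 + ph M (k + 1)) : False := by
  obtain ⟨a1, a2⟩ := cc_bd hk (by omega : k + 3 ≤ M)
  have b2 := ph_nonneg (M := M) (j := m + 1) (by omega)
  have b3 : ph M (m + 1) < 1 / 2 := ph_lt (by omega) (by omega)
  cases h with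
  | u k' m' =>
    have e1 : cc M k' = cc M k := nat_eq_of (by linarith) (by linarith)
    have e3 := cc_inj (by omega) (by omega) e1
    subst e3
    have e4 : m' = m + 1 := ph_inj (M := M) (by omega) (by linarith)
    subst e4
    exact h3 rfl
  | l k' m' =>
    have e1 : cc M k' = cc M k := nat_eq_of (by linarith) (by linarith)
    have e3 := cc_inj (by omega) (by omega) e1
    subst e3
    have e4 : m' + 1 = m + 1 := ph_inj (M := M) (by omega) (by linarith)
    have e5 : m' = m := by omega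
    subst e5
    exact h4 (by assumption) rfl
  | d c r hc hr hcr =>
    have e1 : c = cc M k := nat_eq_of (by linarith) (by linarith)
    rcases hcr with rfl | rfl
    · rw [← e1] at a1
      norm_num at a1
    · norm_num at h1
  | _ => linarith

end

/-- no vertex lies on the edge `k` -/
def Fr (M : ℕ) (n s e w : ℝ) (k : GF) : Prop :=
  ∀ x : GX, x.ok M → layX M n s e w x ∉ openSegment ℝ (layX M n s e w (k.ends M).1)
      (layX M n s e w (k.ends M).2)

theorem fr_of {M : ℕ} {n s e w : ℝ} {k : GF}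
    (H : ∀ (x : GX) (p q : ℝ), Kd M n s e w x p q →
      Bt (layX M n s e w (k.ends M).1).re (layX M n s e w (k.ends M).2).re p →
      Bt (layX M n s e w (k.ends M).1).im (layX M n s e w (k.ends M).2).im q →
      Bt ((layX M n s e w (k.ends M).1).re + (layX M n s e w (k.ends M).1).im)
        ((layX M n s e w (k.ends M).2).re + (layX M n s e w (k.ends M).2).im) (p + q) → False) :
    Fr M n s e w k := by
  intro x hx hz
  obtain ⟨b1, b2, b3⟩ := seg_box hz
  exact H x _ _ (kd x hx) b1 b2 b3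

def Big (M : ℕ) (n s e w : ℝ) : Prop :=
  (5 : ℝ) ≤ M ∧ 2 * M + 3 < n ∧ 2 * M + 3 < s ∧ 2 * M + 3 < e ∧ 2 * M + 3 < w

section

variable {M : ℕ} {n s e w : ℝ} (h : Big M n s e w)

include h

theorem f_ns : Fr M n s e w .ns := by
  obtain ⟨hM, hn, hs, he, hw⟩ := h
  refine fr_of fun x p q hx b1 b2 b3 => ?_
  simp only [GF.ends, layX] at b1 b2 b3
  obtain ⟨h1, h2⟩ := b2.2.1 (by linarith)
  exact n_ns hM hn hs he hw hx (b1.2.2 rfl) h1 h2

theorem f_yp (j : ℕ) : Fr M n s e w (.g (.yp false j)) := by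
  obtain ⟨hM, hn, hs, he, hw⟩ := h
  refine fr_of fun x p q hx b1 b2 b3 => ?_
  simp only [GF.ends, GE.ends, layX, lay] at b1 b2 b3
  obtain ⟨h1, h2⟩ := b2.1 (by linarith)
  exact n_yp hM hn hs he hw hx h1 h2

theorem f_xu (c : ℕ) : Fr M n s e w (.g (.xu false c)) := by
  obtain ⟨hM, hn, hs, he, hw⟩ := h
  refine fr_of fun x p q hx b1 b2 b3 => ?_
  simp only [GF.ends, GE.ends, layX, lay] at b1 b2 b3
  obtain ⟨h1, h2⟩ := b2.2.1 (by linarith)
  exact n_xu hM hn hs he hw hx h1 h2

theorem f_xp : Fr M n s e w (.g (.xp false)) := by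
  obtain ⟨hM, hn, hs, he, hw⟩ := h
  have hM1 : (1 : ℝ) ≤ M := by linarith
  refine fr_of fun x p q hx b1 b2 b3 => ?_
  simp only [GF.ends, GE.ends, layX, lay, Bool.not_false, cast_2M hM1] at b1 b2 b3
  obtain ⟨h1, h2⟩ := b2.2.1 (by linarith)
  obtain ⟨h3, h4⟩ := b1.2.1 (by linarith)
  exact n_xp hM hn hs he hw hx h1 h2 (by linarith)

theorem f_up (c : ℕ) (hc : (c : ℝ) + 1 ≤ M) : Fr M n s e w (.g (.up false c)) := by
  obtain ⟨hM, hn, hs, he, hw⟩ := h
  refine fr_of fun x p q hx b1 b2 b3 => ?_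
  simp only [GF.ends, GE.ends, layX, lay] at b1 b2 b3
  obtain ⟨h1, h2⟩ := b2.2.1 (by linarith)
  exact n_up hM hn hs he hw hx hc (b1.2.2 (by push_cast; ring)) h1 h2

theorem f_pd (c : ℕ) (hc : (c : ℝ) + 1 ≤ M) : Fr M n s e w (.g (.pd false c)) := by
  obtain ⟨hM, hn, hs, he, hw⟩ := h
  refine fr_of fun x p q hx b1 b2 b3 => ?_
  simp only [GF.ends, GE.ends, layX, lay, GN.D', cond_false] at b1 b2 b3
  obtain ⟨h1, h2⟩ := b2.1 (by push_cast; linarith)
  have h3 := b1.2.2 (by push_cast; ring)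
  push_cast at h1 h2 h3
  exact n_pd hM hn hs he hw hx hc (by linarith) h1 (by linarith)

theorem f_dd (c : ℕ) (hc : (c : ℝ) + 2 ≤ M) : Fr M n s e w (.g (.dd false c)) := by
  obtain ⟨hM, hn, hs, he, hw⟩ := h
  refine fr_of fun x p q hx b1 b2 b3 => ?_
  simp only [GF.ends, GE.ends, layX, lay, GN.D', cond_false] at b1 b2 b3
  obtain ⟨h1, h2⟩ := b1.1 (by push_cast; linarith)
  have h3 := b2.2.2 rfl
  push_cast at h1 h2 h3
  exact n_dd hM hn hs he hw hx hc (by linarith) h1 (by linarith)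

theorem f_pp (j : ℕ) : Fr M n s e w (.g (.pp false j)) := by
  obtain ⟨hM, hn, hs, he, hw⟩ := h
  refine fr_of fun x p q hx b1 b2 b3 => ?_
  simp only [GF.ends, GE.ends, layX, lay] at b1 b2 b3
  obtain ⟨h1, h2⟩ := b1.1 (by push_cast; linarith)
  have h3 := b2.2.2 rfl
  push_cast at h1 h2 h3
  exact n_pp hM hn hs he hw hx h3 h1 (by linarith)

theorem f_pc (j : ℕ) (ε : Bool) : Fr M n s e w (.g (.pc false j ε)) := by
  obtain ⟨hM, hn, hs, he, hw⟩ := h
  refine fr_of fun x p q hx b1 b2 b3 => ?_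
  simp only [GF.ends, GE.ends, layX, lay] at b1 b2 b3
  have hε : (-1 : ℝ) < cond ε (-3 / 4) (-1 / 2) ∧ cond ε (-3 / 4) (-1 / 2) ≤ (-1 / 2 : ℝ) := by
    cases ε <;> norm_num
  obtain ⟨h1, h2⟩ := b1.1 (by linarith)
  obtain ⟨h3, h4⟩ := b2.1 hε.1
  exact n_pc hM hn hs he hw hx (j := j) h3 (by linarith) h1 h2

theorem f_pc' (j : ℕ) (ε : Bool) : Fr M n s e w (.g (.pc' false j ε)) := by
  obtain ⟨hM, hn, hs, he, hw⟩ := h
  refine fr_of fun x p q hx b1 b2 b3 => ?_
  simp only [GF.ends, GE.ends, layX, lay] at b1 b2 b3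
  have hε : (-1 : ℝ) < cond ε (-3 / 4) (-1 / 2) ∧ cond ε (-3 / 4) (-1 / 2) ≤ (-1 / 2 : ℝ) := by
    cases ε <;> norm_num
  obtain ⟨h1, h2⟩ := b1.2.1 (by push_cast; linarith)
  obtain ⟨h3, h4⟩ := b2.1 hε.1
  push_cast at h2
  exact n_pc' hM hn hs he hw hx (j := j) h3 (by linarith) h1 (by linarith)

theorem f_cc (j : ℕ) : Fr M n s e w (.g (.cc false j)) := by
  obtain ⟨hM, hn, hs, he, hw⟩ := h
  refine fr_of fun x p q hx b1 b2 b3 => ?_
  simp only [GF.ends, GE.ends, layX, lay, cond_false, cond_true] at b1 b2 b3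
  obtain ⟨h1, h2⟩ := b2.2.1 (by norm_num)
  exact n_cc hM hn hs he hw hx h1 h2

theorem f_uu : Fr M n s e w (.g .uu) := by
  obtain ⟨hM, hn, hs, he, hw⟩ := h
  have hM1 : (1 : ℝ) ≤ M := by linarith
  refine fr_of fun x p q hx b1 b2 b3 => ?_
  simp only [GF.ends, GE.ends, layX, lay, cast_M hM1] at b1 b2 b3
  obtain ⟨h1, h2⟩ := b1.1 (by linarith)
  obtain ⟨h3, h4⟩ := b2.2.1 (by linarith)
  have h5 := b3.2.2 (by ring)
  exact n_uu hM hn hs he hw hx (by linarith) (by linarith) (by linarith) (by linarith)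
    (by linarith)

theorem f_uq (ε : Bool) : Fr M n s e w (.g (.uq false ε)) := by
  obtain ⟨hM, hn, hs, he, hw⟩ := h
  have hM1 : (1 : ℝ) ≤ M := by linarith
  refine fr_of fun x p q hx b1 b2 b3 => ?_
  cases ε with
  | false =>
    simp only [GF.ends, GE.ends, layX, lay, cast_M hM1] at b1 b2 b3
    obtain ⟨h1, h2⟩ := b1.1 (by linarith)
    obtain ⟨h3, h4⟩ := b2.2.1 (by linarith)
    exact n_uq hM hn hs he hw hx (by linarith) (by linarith) (by linarith) (by linarith)
  | true =>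
    simp only [GF.ends, GE.ends, layX, lay, cast_M hM1] at b1 b2 b3
    obtain ⟨h1, h2⟩ := b1.1 (by linarith)
    obtain ⟨h3, h4⟩ := b2.2.1 (by linarith)
    exact n_uq' hM hn hs he hw hx (by linarith) (by linarith) (by linarith) (by linarith)

theorem f_qq : Fr M n s e w (.g .qq) := by
  obtain ⟨hM, hn, hs, he, hw⟩ := h
  refine fr_of fun x p q hx b1 b2 b3 => ?_
  simp only [GF.ends, GE.ends, layX, lay] at b1 b2 b3
  obtain ⟨h1, h2⟩ := b1.1 (by linarith)
  obtain ⟨h3, h4⟩ := b2.1 (by linarith)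
  exact n_qq hM hn hs he hw hx (by linarith) (by linarith) (by linarith) (by linarith)

theorem f_dr (ε : Bool) : Fr M n s e w (.g (.dr false ε)) := by
  obtain ⟨hM, hn, hs, he, hw⟩ := h
  have hM1 : (1 : ℝ) ≤ M := by linarith
  refine fr_of fun x p q hx b1 b2 b3 => ?_
  cases ε with
  | false =>
    simp only [GF.ends, GE.ends, layX, lay, GN.D', cond_false, Bool.not_false, cast_M hM1,
      Nat.cast_zero] at b1 b2 b3
    obtain ⟨h1, h2⟩ := b1.1 (by linarith)
    obtain ⟨h3, h4⟩ := b2.2.1 (by norm_num)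
    exact n_dr hM hn hs he hw hx (by linarith) (by linarith) (by linarith) (by linarith)
  | true =>
    simp only [GF.ends, GE.ends, layX, lay, GN.D', cond_false, cond_true, Bool.not_false,
      cast_M hM1, Nat.cast_zero, Nat.cast_one] at b1 b2 b3
    obtain ⟨h1, h2⟩ := b1.1 (by linarith)
    obtain ⟨h3, h4⟩ := b2.1 (by norm_num)
    exact n_dr hM hn hs he hw hx (by linarith) (by linarith) (by linarith) (by linarith)

theorem f_ul (k m : ℕ) (hk : 1 ≤ k) (hm : 1 ≤ m) (hkm : k + m + 3 ≤ M) :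
    Fr M n s e w (.g (.ul k m)) := by
  obtain ⟨hM, hn, hs, he, hw⟩ := h
  have e1 : ph M m < ph M (m + 1) := ph_mono (by omega) (by omega)
  have e2 : ph M k < ph M (k + 1) := ph_mono (by omega) (by omega)
  refine fr_of fun x p q hx b1 b2 b3 => ?_
  simp only [GF.ends, GE.ends, layX, lay] at b1 b2 b3
  obtain ⟨h1, h2⟩ := b1.1 (by linarith)
  obtain ⟨h3, h4⟩ := b2.1 (by linarith)
  exact n_ul hM hn hs he hw hx hk hm hkm h1 h2 h3 h4

theorem f_lk (k m : ℕ) (hk : 1 ≤ k) (hkm : k + m + 3 ≤ M) :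
    Fr M n s e w (.g (.lk false k m)) := by
  obtain ⟨hM, hn, hs, he, hw⟩ := h
  obtain ⟨a1, a2⟩ := cc_bd (k := m + 1) (by omega) (by omega : m + 1 + 3 ≤ M)
  have c1 := ph_nonneg (M := M) hk
  have c2 : ph M k < 1 / 2 := ph_lt (by omega) (by omega)
  have c3 := ph_nonneg (M := M) (j := k + 1) (by omega)
  have c4 : ph M (k + 1) < 1 / 2 := ph_lt (by omega) (by omega)
  refine fr_of fun x p q hx b1 b2 b3 => ?_
  rcases Nat.eq_zero_or_pos m with rfl | hm
  · simp only [GF.ends, GE.ends, layX, lay, GN.lo', GN.lo, GN.u', cond_false, if_true,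
      Nat.cast_zero, ph_one, zero_add] at b1 b2 b3 a1 a2
    obtain ⟨h1, h2⟩ := b2.1 (by linarith)
    have h0 := b1.2.2 (by ring)
    exact n_lk hM hn hs he hw hx hk hkm (by rw [zero_add, ph_one]; linarith) (by linarith)
      (by linarith) (by rw [zero_add]; exact h2.ne) (fun h => absurd h (by omega))
  · obtain ⟨a3, a4⟩ := cc_bd hm (by omega : m + 3 ≤ M)
    have hm0 : m ≠ 0 := by omega
    have hk0 : k ≠ 0 := by omega
    simp only [GF.ends, GE.ends, layX, lay, GN.lo', GN.lo, GN.u', cond_false, hm0, hk0,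
      if_false] at b1 b2 b3
    have h0 := b1.2.2 rfl
    rcases lt_trichotomy (2 * (cc M m : ℝ) + 2 + ph M (k + 1))
      (2 * (cc M (m + 1) : ℝ) + 2 + ph M k) with h1 | h1 | h1
    · obtain ⟨h2, h3⟩ := b2.1 h1
      exact n_lk hM hn hs he hw hx hk hkm h0 (by linarith) (by linarith) h3.ne
        (fun _ => h2.ne')
    · exfalso
      have e1 : cc M m = cc M (m + 1) := nat_eq_of (by linarith) (by linarith)
      have := cc_inj (M := M) (by omega) (by omega) e1
      omega
    · obtain ⟨h2, h3⟩ := b2.2.1 h1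
      exact n_lk hM hn hs he hw hx hk hkm h0 (by linarith) (by linarith) h2.ne'
        (fun _ => h3.ne)

end

theorem layX_swap (M : ℕ) (n s e w : ℝ) (x : GX) :
    layX M n s e w x.swap = mir (layX M e w n s x) := by
  rcases x with ((_ | _) | (_ | _) | ((⟨_ | _, j⟩) | (⟨_ | _, j⟩) | (⟨_ | _, j, ε⟩) | (_ | _) |
    _ | _ | _)) <;>
    simp [layX, lay, GX.swap, GN.swap, mir]

def gswap : GF → GF
  | .ns => .ew
  | .ew => .ns
  | .g c => .g c.swap

theorem gswap_ends (M : ℕ) (k : GF) (hk : k.valid M) :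
    s(((gswap k).ends M).1, ((gswap k).ends M).2) = s((k.ends M).1.swap, (k.ends M).2.swap) := by
  cases k with
  | ns => rfl
  | ew => rfl
  | g c => exact GE.ends_swap M c hk

theorem fr_swap {M : ℕ} {n s e w : ℝ} {k : GF} (hk : k.valid M) (h : Fr M e w n s k) :
    Fr M n s e w (gswap k) := by
  intro x hx hz
  have hx' : x.swap.ok M := by
    rcases x with _ | _ | x
    · trivial
    · trivial
    · exact GN.ok_swap.2 hx
  have e1 : layX M n s e w x = mir (layX M e w n s x.swap) := by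
    rw [← layX_swap, GX.swap_swap]
  apply h x.swap hx'
  rcases Sym2.eq_iff.1 (gswap_ends M k hk) with ⟨h1, h2⟩ | ⟨h1, h2⟩
  · rw [h1, h2, e1, layX_swap, layX_swap] at hz
    exact mir_seg hz
  · rw [h1, h2, e1, layX_swap, layX_swap, openSegment_symm] at hz
    exact mir_seg hz

theorem fr_all {M : ℕ} {n s e w : ℝ} (h : Big M n s e w) (k : GF) (hk : k.valid M) :
    Fr M n s e w k := by
  have h' : Big M e w n s := ⟨h.1, h.2.2.2.1, h.2.2.2.2, h.2.1, h.2.2.1⟩
  have ca : ∀ c : ℕ, c < M → (c : ℝ) + 1 ≤ M := fun c hc => by exact_mod_cast hc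
  have cb : ∀ c : ℕ, c + 1 < M → (c : ℝ) + 2 ≤ M := fun c hc => by
    have : ((c + 1 + 1 : ℕ) : ℝ) ≤ M := by exact_mod_cast hc
    push_cast at this
    linarith
  rcases k with _ | _ | k
  · exact f_ns h
  · exact fr_swap (k := .ns) trivial (f_ns h')
  · rcases k with ⟨_ | _, j⟩ | ⟨_ | _, c⟩ | (_ | _) | ⟨_ | _, c⟩ | ⟨_ | _, c⟩ | ⟨_ | _, c⟩ |
      ⟨_ | _, j⟩ | ⟨_ | _, j, ε⟩ | ⟨_ | _, j, ε⟩ | ⟨_ | _, j⟩ | _ | ⟨_ | _, ε⟩ | _ |
      ⟨_ | _, ε⟩ | ⟨k, m⟩ | ⟨_ | _, k, m⟩
    · exact f_yp h j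
    · exact fr_swap (k := .g (.yp false j)) hk (f_yp h' j)
    · exact f_xu h c
    · exact fr_swap (k := .g (.xu false c)) hk (f_xu h' c)
    · exact f_xp h
    · exact fr_swap (k := .g (.xp false)) hk (f_xp h')
    · exact f_up h c (ca c hk)
    · exact fr_swap (k := .g (.up false c)) hk (f_up h' c (ca c hk))
    · exact f_pd h c (ca c hk)
    · exact fr_swap (k := .g (.pd false c)) hk (f_pd h' c (ca c hk))
    · exact f_dd h c (cb c hk)
    · exact fr_swap (k := .g (.dd false c)) hk (f_dd h' c (cb c hk))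
    · exact f_pp h j
    · exact fr_swap (k := .g (.pp false j)) hk (f_pp h' j)
    · exact f_pc h j ε
    · exact fr_swap (k := .g (.pc false j ε)) hk (f_pc h' j ε)
    · exact f_pc' h j ε
    · exact fr_swap (k := .g (.pc' false j ε)) hk (f_pc' h' j ε)
    · exact f_cc h j
    · exact fr_swap (k := .g (.cc false j)) hk (f_cc h' j)
    · exact f_uu h
    · exact f_uq h ε
    · exact fr_swap (k := .g (.uq false ε)) hk (f_uq h' ε)
    · exact f_qq h
    · exact f_dr h ε
    · exact fr_swap (k := .g (.dr false ε)) hk (f_dr h' ε)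
    · exact f_ul h k m hk.1 hk.2.1 hk.2.2
    · exact f_lk h k m hk.1 hk.2
    · exact fr_swap (k := .g (.lk false k m)) hk (f_lk h' k m hk.1 hk.2)

end LV

theorem layout_vtx {M : ℕ} (hM : 5 ≤ M) {n s e w : ℝ} (hn : 2 * M + 3 < n) (hs : 2 * M + 3 < s)
    (he : 2 * M + 3 < e) (hw : 2 * M + 3 < w) : ∀ k : GF, k.valid M → ∀ x : GX, x.ok M →
    x ≠ (k.ends M).1 → x ≠ (k.ends M).2 →
    layX M n s e w x ∉ openSegment ℝ (layX M n s e w (k.ends M).1)
      (layX M n s e w (k.ends M).2) := by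
  intro k hk x hx _ _
  exact LV.fr_all ⟨by exact_mod_cast hM, hn, hs, he, hw⟩ k hk x hx

namespace LV

theorem kd_inj {M : ℕ} {n s e w p q : ℝ} (hM : (5 : ℝ) ≤ M) (hn : 2 * M + 3 < n)
    (hs : 2 * M + 3 < s) (he : 2 * M + 3 < e) (hw : 2 * M + 3 < w) {x y : GX}
    (hx : Kd M n s e w x p q) {p' q' : ℝ} (hy : Kd M n s e w y p' q') (h1 : p = p')
    (h2 : q = q') : x = y := by
  cases hx with
  | xf => cases hy with
    | xf => rfl
    | _ => exfalso; linarith
  | xt => cases hy with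
    | xt => rfl
    | _ => exfalso; linarith
  | yf => cases hy with
    | yf => rfl
    | _ => exfalso; linarith
  | yt => cases hy with
    | yt => rfl
    | _ => exfalso; linarith
  | pf j hj => cases hy with
    | pf j' hj' =>
      have e1 : (j : ℝ) = j' := by linarith
      rw [Nat.cast_injective e1]
    | _ => exfalso; linarith
  | pt j hj => cases hy with
    | pt j' hj' =>
      have e1 : (j : ℝ) = j' := by linarith
      rw [Nat.cast_injective e1]
    | _ => exfalso; linarith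
  | uf j hj => cases hy with
    | uf j' hj' =>
      have e1 : (j : ℝ) = j' := by linarith
      rw [Nat.cast_injective e1]
    | _ => exfalso; linarith
  | ut j hj => cases hy with
    | ut j' hj' =>
      have e1 : (j : ℝ) = j' := by linarith
      rw [Nat.cast_injective e1]
    | _ => exfalso; linarith
  | cf j hj => cases hy with
    | cf j' hj' =>
      have e1 : (j : ℝ) = j' := by linarith
      rw [Nat.cast_injective e1]
    | _ => exfalso; linarith
  | cf' j hj => cases hy with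
    | cf' j' hj' =>
      have e1 : (j : ℝ) = j' := by linarith
      rw [Nat.cast_injective e1]
    | _ => exfalso; linarith
  | ct j hj => cases hy with
    | ct j' hj' =>
      have e1 : (j : ℝ) = j' := by linarith
      rw [Nat.cast_injective e1]
    | _ => exfalso; linarith
  | ct' j hj => cases hy with
    | ct' j' hj' =>
      have e1 : (j : ℝ) = j' := by linarith
      rw [Nat.cast_injective e1]
    | _ => exfalso; linarith
  | qf => cases hy with
    | qf => rfl
    | d c r hc hr hcr =>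
      exfalso
      rcases hcr with rfl | rfl
      · rw [Nat.cast_zero] at h1; linarith
      · rw [Nat.cast_zero] at h2; linarith
    | _ => exfalso; linarith
  | qt => cases hy with
    | qt => rfl
    | _ => exfalso; linarith
  | d c r hc hr hcr => cases hy with
    | d c' r' hc' hr' =>
      have e1 : (c : ℝ) = c' := by linarith
      have e2 : (r : ℝ) = r' := by linarith
      rw [Nat.cast_injective e1, Nat.cast_injective e2]
    | qf =>
      exfalso
      rcases hcr with rfl | rfl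
      · rw [Nat.cast_zero] at h1; linarith
      · rw [Nat.cast_zero] at h2; linarith
    | u k m =>
      exfalso
      rcases hcr with rfl | rfl
      · norm_num at h1; linarith
      · norm_num at h2; linarith
    | l k m =>
      exfalso
      rcases hcr with rfl | rfl
      · norm_num at h1; linarith
      · norm_num at h2; linarith
    | _ => exfalso; linarith
  | u k m => cases hy with
    | u k' m' =>
      have e1 : cc M k = cc M k' := nat_eq_of (by linarith) (by linarith)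
      have e2 : cc M m = cc M m' := nat_eq_of (by linarith) (by linarith)
      have e3 := cc_inj (by omega) (by omega) e1
      have e4 := cc_inj (by omega) (by omega) e2
      subst e3 e4
      rfl
    | l k' m' =>
      exfalso
      have e1 : cc M k = cc M k' := nat_eq_of (by linarith) (by linarith)
      have e3 := cc_inj (by omega) (by omega) e1
      have e2 : cc M m = cc M m' := nat_eq_of (by linarith) (by linarith)
      have e4 := cc_inj (by omega) (by omega) e2
      subst e3 e4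
      have e5 : ph M m = ph M (m + 1) := by linarith
      have := ph_inj (M := M) (by omega) e5
      omega
    | d c r hc hr hcr =>
      exfalso
      rcases hcr with rfl | rfl
      · norm_num at h1; linarith
      · norm_num at h2; linarith
    | _ => exfalso; linarith
  | l k m => cases hy with
    | l k' m' =>
      have e1 : cc M k = cc M k' := nat_eq_of (by linarith) (by linarith)
      have e2 : cc M m = cc M m' := nat_eq_of (by linarith) (by linarith)
      have e3 := cc_inj (by omega) (by omega) e1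
      have e4 := cc_inj (by omega) (by omega) e2
      subst e3 e4
      rfl
    | u k' m' =>
      exfalso
      have e1 : cc M k = cc M k' := nat_eq_of (by linarith) (by linarith)
      have e3 := cc_inj (by omega) (by omega) e1
      have e2 : cc M m = cc M m' := nat_eq_of (by linarith) (by linarith)
      have e4 := cc_inj (by omega) (by omega) e2
      subst e3 e4
      have e5 : ph M (m + 1) = ph M m := by linarith
      have := ph_inj (M := M) (by omega) e5
      omega
    | d c r hc hr hcr =>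
      exfalso
      rcases hcr with rfl | rfl
      · norm_num at h1; linarith
      · norm_num at h2; linarith
    | _ => exfalso; linarith

end LV

theorem layout_inj {M : ℕ} (hM : 5 ≤ M) {n s e w : ℝ} (hn : 2 * M + 3 < n) (hs : 2 * M + 3 < s)
    (he : 2 * M + 3 < e) (hw : 2 * M + 3 < w) : ∀ x y : GX, x.ok M → y.ok M →
    layX M n s e w x = layX M n s e w y → x = y := by
  intro x y hx hy h
  exact LV.kd_inj (by exact_mod_cast hM) hn hs he hw (LV.kd x hx) (LV.kd y hy)
    (congrArg Complex.re h) (congrArg Complex.im h)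

end Pool.Agent.Helper74.DG2
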