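import Pool.Agent.Helper59.DG2.DrawOf
import Pool.Agent.Helper40.DG2.InsertGrid

/-!
# The drawing of the core with the grids with islands
-/

set_option autoImplicit false

namespace Pool.Agent.Helper74.DG2

open Pool.Agent.Helper18.RAC Complex

variable {V : Type*}

theorem insGrid [Finite V] : InsGrid V :=
  fun _ _ hf _ _ hM hx hinj hiso => insert_grid hf hM hx hinj hiso

theorem LayD.rac [Finite V] {a b : V} {p : ℕ → V} {κ : ℕ → GX → V} {m K M : ℕ}
    (hl : LayD a b p κ m K M) : ∃ f : V → ℂ, IsRAC (GDt a b p κ m M K) f :=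
  LayD.rac_of insGrid hl

end Pool.Agent.Helper74.DG2
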